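import Mathlib
import Pool.Agent.Lib_helper10.XO.Defs3
set_option autoImplicit false

namespace Pool.Agent.XO

open Finset

theorem is_erase (P : Finset ℕ) (ρ : ℕ → ℕ) {a : ℕ} (ha : a ∈ P) (v : ℕ) :
    ((P.erase a).filter fun i => ρ i = v).card + (if ρ a = v then 1 else 0) =
      (P.filter fun i => ρ i = v).card := by
  have h1 : (P.erase a).filter (fun i => ρ i = v) = (P.filter fun i => ρ i = v).erase a := by
    ext i
    simp only [mem_filter, mem_erase]
    tauto
  rw [h1]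
  split_ifs with h
  · have h2 : a ∈ P.filter fun i => ρ i = v := mem_filter.2 ⟨ha, h⟩
    rw [card_erase_add_one h2]
  · rw [erase_eq_of_notMem (by simp [h]), add_zero]

theorem is_aux (ρ τ : ℕ → ℕ) (n : ℕ) : ∀ P Q : Finset ℕ, P.card = n →
    MonotoneOn ρ (P : Set ℕ) → MonotoneOn τ (Q : Set ℕ) →
    (∀ v, (P.filter fun i => ρ i = v).card = (Q.filter fun i => τ i = v).card) →
    ∃ f : ℕ → ℕ, (∀ i ∈ P, f i ∈ Q) ∧ (∀ i ∈ P, ∀ j ∈ P, i < j → f i < f j) ∧
      (∀ q ∈ Q, ∃ i ∈ P, f i = q) ∧ ∀ i ∈ P, τ (f i) = ρ i := by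
  have fib : ∀ (P Q : Finset ℕ) (ρ τ : ℕ → ℕ),
      (∀ v, (P.filter fun i => ρ i = v).card = (Q.filter fun i => τ i = v).card) →
      ∀ q ∈ Q, ∃ i ∈ P, ρ i = τ q := by
    intro P Q ρ τ hc q hq
    have h1 : 0 < (Q.filter fun i => τ i = τ q).card :=
      card_pos.2 ⟨q, mem_filter.2 ⟨hq, rfl⟩⟩
    rw [← hc, card_pos] at h1
    obtain ⟨i, hi⟩ := h1
    rw [mem_filter] at hi
    exact ⟨i, hi.1, hi.2⟩
  induction n with
  | zero =>
    intro P Q hP _ _ hc
    rw [card_eq_zero] at hP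
    subst hP
    refine ⟨id, by simp, by simp, fun q hq => ?_, by simp⟩
    obtain ⟨i, hi, -⟩ := fib _ _ _ _ hc q hq
    simp at hi
  | succ n ih =>
    intro P Q hP hρ hτ hc
    have hPn : P.Nonempty := card_pos.1 (by omega)
    have ha : P.max' hPn ∈ P := P.max'_mem hPn
    obtain ⟨q0, hq0, e0⟩ := fib Q P τ ρ (fun v => (hc v).symm) _ ha
    have hQn : Q.Nonempty := ⟨q0, hq0⟩
    have hb : Q.max' hQn ∈ Q := Q.max'_mem hQn
    obtain ⟨p0, hp0, e1⟩ := fib P Q ρ τ hc _ hb
    set a := P.max' hPn with hadef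
    set b := Q.max' hQn with hbdef
    have hab : ρ a = τ b := by
      apply le_antisymm
      · rw [← e0]
        exact hτ hq0 hb (Q.le_max' _ hq0)
      · rw [← e1]
        exact hρ hp0 ha (P.le_max' _ hp0)
    obtain ⟨f', h1, h2, h3, h4⟩ := ih (P.erase a) (Q.erase b) (by rw [card_erase_of_mem ha]; omega)
      (hρ.mono (by simp)) (hτ.mono (by simp)) (fun v => by
        have k1 := is_erase P ρ ha v
        have k2 := is_erase Q τ hb v
        have k3 := hc v
        rw [hab] at k1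
        omega)
    have hlt : ∀ i ∈ P, i ≠ a → i < a := fun i hi hne => lt_of_le_of_ne (P.le_max' _ hi) hne
    refine ⟨Function.update f' a b, fun i hi => ?_, fun i hi j hj hij => ?_, fun q hq => ?_,
      fun i hi => ?_⟩
    · by_cases hia : i = a
      · rw [hia, Function.update_self]
        exact hb
      · rw [Function.update_of_ne hia]
        exact mem_of_mem_erase (h1 i (mem_erase.2 ⟨hia, hi⟩))
    · have hja : j ≤ a := P.le_max' _ hj
      have hia : i ≠ a := by omega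
      rw [Function.update_of_ne hia]
      by_cases hja' : j = a
      · rw [hja', Function.update_self]
        have h5 := h1 i (mem_erase.2 ⟨hia, hi⟩)
        rw [mem_erase] at h5
        exact lt_of_le_of_ne (Q.le_max' _ h5.2) h5.1
      · rw [Function.update_of_ne hja']
        exact h2 i (mem_erase.2 ⟨hia, hi⟩) j (mem_erase.2 ⟨hja', hj⟩) hij
    · by_cases hqb : q = b
      · exact ⟨a, ha, by rw [Function.update_self, hqb]⟩
      · obtain ⟨i, hi, hfi⟩ := h3 q (mem_erase.2 ⟨hqb, hq⟩)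
        rw [mem_erase] at hi
        exact ⟨i, hi.2, by rw [Function.update_of_ne hi.1]; exact hfi⟩
    · by_cases hia : i = a
      · rw [hia, Function.update_self, hab]
      · rw [Function.update_of_ne hia]
        exact h4 i (mem_erase.2 ⟨hia, hi⟩)

theorem p3_match (P Q : Finset ℕ) (ρ τ : ℕ → ℕ) (hρ : MonotoneOn ρ (P : Set ℕ))
    (hτ : MonotoneOn τ (Q : Set ℕ))
    (hc : ∀ v, (P.filter fun i => ρ i = v).card = (Q.filter fun i => τ i = v).card) :
    ∃ f : ℕ → ℕ, (∀ i ∈ P, f i ∈ Q) ∧ (∀ i ∈ P, ∀ j ∈ P, i < j → f i < f j) ∧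
      (∀ q ∈ Q, ∃ i ∈ P, f i = q) ∧ ∀ i ∈ P, τ (f i) = ρ i :=
  is_aux ρ τ P.card P Q rfl hρ hτ hc

end Pool.Agent.XO
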