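import Mathlib
import Pool.Agent.Lib_helper10.XO.Defs3
set_option autoImplicit false

namespace Pool.Agent.XO

open Finset

theorem qu_sq (P : Finset ℕ) (ρ : ℕ → ℕ) (V : Finset ℕ) (hV : ∀ i ∈ P, ρ i ∈ V) :
    ((P ×ˢ P).filter fun q => ρ q.1 = ρ q.2).card =
      ∑ v ∈ V, (P.filter fun i => ρ i = v).card * (P.filter fun i => ρ i = v).card := by
  classical
  rw [Finset.card_filter, Finset.sum_product]
  have h1 : ∀ i ∈ P, (∑ j ∈ P, if ρ i = ρ j then 1 else 0) =
      (P.filter fun j => ρ j = ρ i).card := by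
    intro i _
    rw [Finset.card_filter]
    refine Finset.sum_congr rfl fun j _ => ?_
    by_cases h : ρ i = ρ j
    · rw [if_pos h, if_pos h.symm]
    · rw [if_neg h, if_neg (fun h' => h h'.symm)]
  rw [Finset.sum_congr rfl h1, ← Finset.sum_fiberwise_of_maps_to hV]
  refine Finset.sum_congr rfl fun v _ => ?_
  have h2 : ∀ i ∈ P.filter (fun i => ρ i = v), (P.filter fun j => ρ j = ρ i).card =
      (P.filter fun j => ρ j = v).card := by
    intro i hi
    rw [(Finset.mem_filter.mp hi).2]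
  rw [Finset.sum_congr rfl h2, Finset.sum_const, smul_eq_mul]

theorem qu_ineq {a b c : ℕ} (h : a + b = 2 * c) : 2 * (c * c) ≤ a * a + b * b := by
  have h' : (a : ℤ) + b = 2 * c := by exact_mod_cast h
  have : (2 * (c * c) : ℤ) ≤ a * a + b * b := by
    have hb : (b : ℤ) = 2 * c - a := by linarith
    rw [hb]
    nlinarith [sq_nonneg ((a : ℤ) - c)]
  exact_mod_cast this

theorem qu_eq {a b c : ℕ} (h : a + b = 2 * c) (h2 : a * a + b * b ≤ 2 * (c * c)) :
    a = c ∧ b = c := by
  have h' : (a : ℤ) + b = 2 * c := by exact_mod_cast h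
  have h2' : (a : ℤ) * a + b * b ≤ 2 * (c * c) := by exact_mod_cast h2
  have hb : (b : ℤ) = 2 * c - a := by linarith
  rw [hb] at h2'
  have h3 : ((a : ℤ) - c) ^ 2 ≤ 0 := by nlinarith
  have h4 : (a : ℤ) - c = 0 := by
    have := sq_nonneg ((a : ℤ) - c)
    exact pow_eq_zero_iff (two_ne_zero) |>.mp (le_antisymm h3 this)
  have h5 : a = c := by
    have : (a : ℤ) = c := by linarith
    exact_mod_cast this
  exact ⟨h5, by omega⟩

/-- the number of pairs in the same class -/
theorem p3_quad (P P0 P1 : Finset ℕ) (ρ τ : ℕ → ℕ)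
    (hc : ∀ v, (P0.filter fun i => τ i = v).card + (P1.filter fun i => τ i = v).card
      = 2 * (P.filter fun i => ρ i = v).card) :
    2 * ((P ×ˢ P).filter fun q => ρ q.1 = ρ q.2).card
      ≤ ((P0 ×ˢ P0).filter fun q => τ q.1 = τ q.2).card
        + ((P1 ×ˢ P1).filter fun q => τ q.1 = τ q.2).card ∧
    (((P0 ×ˢ P0).filter fun q => τ q.1 = τ q.2).card
        + ((P1 ×ˢ P1).filter fun q => τ q.1 = τ q.2).card
      ≤ 2 * ((P ×ˢ P).filter fun q => ρ q.1 = ρ q.2).card →
      ∀ v, (P0.filter fun i => τ i = v).card = (P.filter fun i => ρ i = v).card ∧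
        (P1.filter fun i => τ i = v).card = (P.filter fun i => ρ i = v).card) := by
  classical
  set V : Finset ℕ := P.image ρ ∪ (P0.image τ ∪ P1.image τ) with hVdef
  have hP : ∀ i ∈ P, ρ i ∈ V := fun i hi =>
    Finset.mem_union_left _ (Finset.mem_image_of_mem _ hi)
  have hP0 : ∀ i ∈ P0, τ i ∈ V := fun i hi =>
    Finset.mem_union_right _ (Finset.mem_union_left _ (Finset.mem_image_of_mem _ hi))
  have hP1 : ∀ i ∈ P1, τ i ∈ V := fun i hi =>
    Finset.mem_union_right _ (Finset.mem_union_right _ (Finset.mem_image_of_mem _ hi))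
  rw [qu_sq P ρ V hP, qu_sq P0 τ V hP0, qu_sq P1 τ V hP1, ← Finset.sum_add_distrib,
    Finset.mul_sum]
  have hle : ∀ v ∈ V, 2 * ((P.filter fun i => ρ i = v).card * (P.filter fun i => ρ i = v).card) ≤
      (P0.filter fun i => τ i = v).card * (P0.filter fun i => τ i = v).card +
      (P1.filter fun i => τ i = v).card * (P1.filter fun i => τ i = v).card :=
    fun v _ => qu_ineq (hc v)
  refine ⟨Finset.sum_le_sum hle, fun htot v => ?_⟩
  have heq := (Finset.sum_eq_sum_iff_of_le hle).mp (le_antisymm (Finset.sum_le_sum hle) htot)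
  by_cases hv : v ∈ V
  · exact qu_eq (hc v) (heq v hv).symm.le
  · have e1 : (P.filter fun i => ρ i = v).card = 0 := by
      rw [Finset.card_eq_zero, Finset.filter_eq_empty_iff]
      intro i hi h
      exact hv (h ▸ hP i hi)
    have := hc v
    omega

end Pool.Agent.XO
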