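import Mathlib
import Pool.Agent.Lib_helper10.XO.Defs3
set_option autoImplicit false

namespace Pool.Agent.XO

open Finset

theorem p3_rid_mono {Λ : ℕ} (n : ℕ) (ω : ℕ → Finset (Fin Λ)) : Monotone (p3rid n ω) := by
  classical
  intro i j h
  unfold p3rid
  exact Finset.card_le_card (Finset.filter_subset_filter _
    (Finset.range_mono (Nat.succ_le_succ h)))

theorem ri_nostart {Λ : ℕ} (n : ℕ) (ω : ℕ → Finset (Fin Λ)) {i j k : ℕ}
    (h : p3rid n ω i = p3rid n ω j) (hik : i < k) (hkj : k ≤ j) : ¬ p3start n ω k := by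
  classical
  intro hk
  unfold p3rid at h
  have hsub : (range (i + 1)).filter (p3start n ω) ⊆ (range (j + 1)).filter (p3start n ω) :=
    Finset.filter_subset_filter _ (Finset.range_mono (by omega))
  have heq := Finset.eq_of_subset_of_card_le hsub (le_of_eq h.symm)
  have hmem : k ∈ (range (j + 1)).filter (p3start n ω) := by
    rw [Finset.mem_filter, Finset.mem_range]
    exact ⟨by omega, hk⟩
  rw [← heq, Finset.mem_filter, Finset.mem_range] at hmem
  omega

theorem ri_start_of_lt {Λ : ℕ} (n : ℕ) (ω : ℕ → Finset (Fin Λ)) {i j : ℕ}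
    (h : p3rid n ω i < p3rid n ω j) : ∃ k, i < k ∧ k ≤ j ∧ p3start n ω k := by
  classical
  by_contra hcon
  push Not at hcon
  unfold p3rid at h
  have hsub : (range (j + 1)).filter (p3start n ω) ⊆ (range (i + 1)).filter (p3start n ω) := by
    intro k hk
    rw [Finset.mem_filter, Finset.mem_range] at hk ⊢
    refine ⟨?_, hk.2⟩
    by_contra hki
    exact hcon k (by omega) (by omega) hk.2
  have := Finset.card_le_card hsub
  omega

theorem ri_letter_le {Λ : ℕ} (n : ℕ) (ω : ℕ → Finset (Fin Λ)) (j : ℕ) : ∀ i, i ≤ j →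
    i ∈ p3P n ω → j ∈ p3P n ω → p3rid n ω i = p3rid n ω j → ω i = ω j := by
  classical
  induction j using Nat.strong_induction_on with
  | _ j ih =>
    intro i hij hi hj h
    rcases hij.eq_or_lt with rfl | hlt
    · rfl
    · have hns := ri_nostart n ω h hlt le_rfl
      unfold p3start at hns
      push Not at hns
      obtain ⟨i', hi'j, hi'P, hbet, heq⟩ := hns hj
      have hii' : i ≤ i' := by
        by_contra hcon
        exact hbet i (by omega) hlt hi
      have h1 := p3_rid_mono n ω hii'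
      have h2 := p3_rid_mono n ω hi'j.le
      rw [← heq]
      exact ih i' hi'j i hii' hi hi'P (by omega)

/-- inside a run the letters are equal -/
theorem p3_rid_letter {Λ : ℕ} (n : ℕ) (ω : ℕ → Finset (Fin Λ)) (i j : ℕ) (hi : i ∈ p3P n ω)
    (hj : j ∈ p3P n ω) (h : p3rid n ω i = p3rid n ω j) : ω i = ω j := by
  rcases le_total i j with hij | hij
  · exact ri_letter_le n ω j i hij hi hj h
  · exact (ri_letter_le n ω i j hij hj hi h.symm).symm

theorem ri_child_le {Λ : ℕ} (n : ℕ) (ω ω' : ℕ → Finset (Fin Λ))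
    (hω' : ∀ j ∈ p3P (2 * n) ω', ω' j = ω (j / 2)) (i j : ℕ) (hij : i ≤ j)
    (hi : i ∈ p3P (2 * n) ω')
    (h : p3rid n ω (i / 2) = p3rid n ω (j / 2)) :
    p3rid (2 * n) ω' i = p3rid (2 * n) ω' j := by
  classical
  refine le_antisymm (p3_rid_mono _ _ hij) ?_
  by_contra hcon
  push Not at hcon
  obtain ⟨k, hik, hkj, hk⟩ := ri_start_of_lt (2 * n) ω' hcon
  obtain ⟨hkP, hk2⟩ := hk
  have hne : ((p3P (2 * n) ω').filter fun r => r < k).Nonempty :=
    ⟨i, by rw [Finset.mem_filter]; exact ⟨hi, hik⟩⟩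
  obtain ⟨hk'P, hk'k⟩ := Finset.mem_filter.1 (Finset.max'_mem _ hne)
  set k' := ((p3P (2 * n) ω').filter fun r => r < k).max' hne with hk'def
  have hik' : i ≤ k' := by
    rw [hk'def]
    exact Finset.le_max' _ _ (by rw [Finset.mem_filter]; exact ⟨hi, hik⟩)
  have hbet : ∀ l, k' < l → l < k → l ∉ p3P (2 * n) ω' := by
    intro l hl hlk hlP
    have : l ≤ k' := by
      rw [hk'def]
      exact Finset.le_max' _ _ (by rw [Finset.mem_filter]; exact ⟨hlP, hlk⟩)
    omega
  have hneq := hk2 k' hk'k hk'P hbet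
  have hP : ∀ l ∈ p3P (2 * n) ω', l / 2 ∈ p3P n ω := by
    intro l hl
    have h1 := hω' l hl
    unfold p3P at hl ⊢
    rw [Finset.mem_filter, Finset.mem_range] at hl ⊢
    refine ⟨by omega, ?_⟩
    rw [← h1]
    exact hl.2
  apply hneq
  rw [hω' k' hk'P, hω' k hkP]
  refine p3_rid_letter n ω _ _ (hP k' hk'P) (hP k hkP) ?_
  have m1 := p3_rid_mono n ω (show i / 2 ≤ k' / 2 by omega)
  have m2 := p3_rid_mono n ω (show k' / 2 ≤ k / 2 by omega)
  have m3 := p3_rid_mono n ω (show k / 2 ≤ j / 2 by omega)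
  omega

/-- the runs of a subword of the doubled word contain the traces of the runs -/
theorem p3_rid_child {Λ : ℕ} (n : ℕ) (ω ω' : ℕ → Finset (Fin Λ))
    (hω' : ∀ j ∈ p3P (2 * n) ω', ω' j = ω (j / 2)) (i j : ℕ) (hi : i ∈ p3P (2 * n) ω')
    (hj : j ∈ p3P (2 * n) ω') (h : p3rid n ω (i / 2) = p3rid n ω (j / 2)) :
    p3rid (2 * n) ω' i = p3rid (2 * n) ω' j := by
  rcases le_total i j with hij | hij
  · exact ri_child_le n ω ω' hω' i j hij hi h
  · exact (ri_child_le n ω ω' hω' j i hij hj h.symm).symm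

end Pool.Agent.XO
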