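import Mathlib
import Pool.Agent.Lib_helper10.XO.Defs3
import Pool.Agent.Lib_helper10.XO.P3.RI
import Pool.Agent.Lib_helper10.XO.P3.QU
import Pool.Agent.Lib_helper10.XO.P3.IS
set_option autoImplicit false

namespace Pool.Agent.XO

open Finset

theorem co_double (g : ℕ → ℕ) (n : ℕ) :
    ∑ j ∈ range (2 * n), g (j / 2) = 2 * ∑ r ∈ range n, g r := by
  induction n with
  | zero => simp
  | succ n ih =>
    have e : 2 * (n + 1) = 2 * n + 1 + 1 := by ring
    rw [e, sum_range_succ, sum_range_succ, ih, sum_range_succ]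
    have h1 : 2 * n / 2 = n := by omega
    have h2 : (2 * n + 1) / 2 = n := by omega
    rw [h1, h2]
    ring

theorem co_mem {Λ : ℕ} (n : ℕ) (ω : ℕ → Finset (Fin Λ)) (i : ℕ) :
    i ∈ p3P n ω ↔ i < n ∧ (ω i).Nonempty := by
  unfold p3P
  rw [mem_filter, mem_range]

/-- one child -/
theorem co_child {Λ : ℕ} (n : ℕ) (ω ω' : ℕ → Finset (Fin Λ))
    (hω' : ∀ j ∈ p3P (2 * n) ω', ω' j = ω (j / 2))
    (hf : ∀ v, (((p3P (2 * n) ω').filter fun j => p3rid n ω (j / 2) = v).card)
      = ((p3P n ω).filter fun i => p3rid n ω i = v).card) :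
    ∃ f, p3iso n ω (2 * n) ω' f := by
  obtain ⟨f, h1, h2, h3, h4⟩ := p3_match (p3P n ω) (p3P (2 * n) ω') (p3rid n ω)
    (fun j => p3rid n ω (j / 2)) (fun a _ b _ hab => p3_rid_mono n ω hab)
    (fun a _ b _ hab => p3_rid_mono n ω (Nat.div_le_div_right hab)) (fun v => (hf v).symm)
  refine ⟨f, h1, h2, h3, ?_⟩
  intro i hi
  have hfi := h1 i hi
  rw [hω' (f i) hfi]
  have h5 := (co_mem (2 * n) ω' (f i)).1 hfi
  apply p3_rid_letter n ω (f i / 2) i
  · rw [co_mem]
    refine ⟨by omega, ?_⟩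
    rw [← hω' (f i) hfi]
    exact h5.2
  · exact hi
  · exact h4 i hi

/-- the pairs of a child -/
theorem co_psi {Λ : ℕ} (n : ℕ) (ω ω' : ℕ → Finset (Fin Λ))
    (hω' : ∀ j ∈ p3P (2 * n) ω', ω' j = ω (j / 2)) :
    ((p3P (2 * n) ω' ×ˢ p3P (2 * n) ω').filter
      fun q => p3rid n ω (q.1 / 2) = p3rid n ω (q.2 / 2)).card ≤ p3Psi (2 * n) ω' := by
  unfold p3Psi
  apply card_le_card
  intro q hq
  rw [mem_filter, mem_product] at hq ⊢
  exact ⟨hq.1, p3_rid_child n ω ω' hω' q.1 q.2 hq.1.1 hq.1.2 hq.2⟩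

/-- if no child is better then both children are equal to the parent up to empty letters -/
theorem p3_core {Λ : ℕ} (n : ℕ) (ω ω0 ω1 : ℕ → Finset (Fin Λ))
    (hu : ∀ j, j < 2 * n → ω0 j ∪ ω1 j = ω (j / 2))
    (hd : ∀ j, j < 2 * n → Disjoint (ω0 j) (ω1 j))
    (h0 : ¬ p3better (2 * n) ω0 n ω) (h1 : ¬ p3better (2 * n) ω1 n ω) :
    (∃ f, p3iso n ω (2 * n) ω0 f) ∧ ∃ f, p3iso n ω (2 * n) ω1 f := by
  classical
  -- atoms
  have hlam : p3lam (2 * n) ω0 + p3lam (2 * n) ω1 = 2 * p3lam n ω := by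
    unfold p3lam
    rw [← co_double (fun r => (ω r).card) n, ← sum_add_distrib]
    apply sum_congr rfl
    intro j hj
    rw [mem_range] at hj
    rw [← hu j hj, card_union_of_disjoint (hd j hj)]
  unfold p3better at h0 h1
  rw [not_or, not_and_or, not_or, not_and_or] at h0 h1
  obtain ⟨a0, b0⟩ := h0
  obtain ⟨a1, b1⟩ := h1
  have l0 : p3lam (2 * n) ω0 = p3lam n ω := by omega
  have l1 : p3lam (2 * n) ω1 = p3lam n ω := by omega
  have b0' := b0.resolve_left (fun h => h l0)
  have b1' := b1.resolve_left (fun h => h l1)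
  obtain ⟨c0, d0⟩ := b0'
  obtain ⟨c1, d1⟩ := b1'
  -- letters
  have hnu : ∀ (k : ℕ) (w : ℕ → Finset (Fin Λ)),
      p3nu k w = ∑ r ∈ range k, if (w r).Nonempty then 1 else 0 := by
    intro k w
    unfold p3nu p3P
    rw [card_filter]
  have hterm : ∀ j ∈ range (2 * n), (if (ω (j / 2)).Nonempty then 1 else 0 : ℕ) ≤
      (if (ω0 j).Nonempty then 1 else 0) + (if (ω1 j).Nonempty then 1 else 0) := by
    intro j hj
    rw [mem_range] at hj
    rw [← hu j hj]
    by_cases e0 : (ω0 j).Nonempty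
    · rw [if_pos e0]
      split_ifs <;> omega
    · by_cases e1 : (ω1 j).Nonempty
      · rw [if_pos e1]
        split_ifs <;> omega
      · rw [not_nonempty_iff_eq_empty] at e0 e1
        rw [e0, e1]
        simp
  have hsum : ∑ j ∈ range (2 * n), (if (ω (j / 2)).Nonempty then 1 else 0 : ℕ) =
      ∑ j ∈ range (2 * n),
        ((if (ω0 j).Nonempty then 1 else 0) + (if (ω1 j).Nonempty then 1 else 0) : ℕ) := by
    apply le_antisymm (sum_le_sum hterm)
    rw [sum_add_distrib, ← hnu, ← hnu, co_double (fun r => if (ω r).Nonempty then 1 else 0) n,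
      ← hnu]
    omega
  have heq := (sum_eq_sum_iff_of_le hterm).1 hsum
  have n0 : p3nu (2 * n) ω0 = p3nu n ω := by
    have : p3nu (2 * n) ω0 + p3nu (2 * n) ω1 = 2 * p3nu n ω := by
      rw [hnu, hnu, hnu, ← sum_add_distrib, ← hsum,
        co_double (fun r => if (ω r).Nonempty then 1 else 0) n]
    omega
  have n1 : p3nu (2 * n) ω1 = p3nu n ω := by
    have : p3nu (2 * n) ω0 + p3nu (2 * n) ω1 = 2 * p3nu n ω := by
      rw [hnu, hnu, hnu, ← sum_add_distrib, ← hsum,
        co_double (fun r => if (ω r).Nonempty then 1 else 0) n]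
    omega
  have p0 : p3Psi (2 * n) ω0 ≤ p3Psi n ω := by
    rcases d0 with d0 | d0
    · exact absurd n0 d0
    · omega
  have p1 : p3Psi (2 * n) ω1 ≤ p3Psi n ω := by
    rcases d1 with d1 | d1
    · exact absurd n1 d1
    · omega
  -- the letters of the children
  have w0 : ∀ j ∈ p3P (2 * n) ω0, ω0 j = ω (j / 2) := by
    intro j hj
    rw [co_mem] at hj
    have h2 := heq j (mem_range.2 hj.1)
    rw [if_pos hj.2] at h2
    by_cases e1 : (ω1 j).Nonempty
    · exfalso
      rw [if_pos e1] at h2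
      split_ifs at h2 <;> omega
    · rw [not_nonempty_iff_eq_empty] at e1
      rw [← hu j hj.1, e1, union_empty]
  have w1 : ∀ j ∈ p3P (2 * n) ω1, ω1 j = ω (j / 2) := by
    intro j hj
    rw [co_mem] at hj
    have h2 := heq j (mem_range.2 hj.1)
    rw [if_pos hj.2] at h2
    by_cases e1 : (ω0 j).Nonempty
    · exfalso
      rw [if_pos e1] at h2
      split_ifs at h2 <;> omega
    · rw [not_nonempty_iff_eq_empty] at e1
      rw [← hu j hj.1, e1, empty_union]
  -- the fibre numbers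
  have hc : ∀ v, ((p3P (2 * n) ω0).filter fun i => p3rid n ω (i / 2) = v).card +
      ((p3P (2 * n) ω1).filter fun i => p3rid n ω (i / 2) = v).card
      = 2 * ((p3P n ω).filter fun i => p3rid n ω i = v).card := by
    intro v
    have hcard : ∀ (k : ℕ) (w : ℕ → Finset (Fin Λ)) (t : ℕ → ℕ),
        ((p3P k w).filter fun i => t i = v).card =
          ∑ r ∈ range k, (if (w r).Nonempty then 1 else 0) * (if t r = v then 1 else 0) := by
      intro k w t
      unfold p3P
      rw [filter_filter, card_filter]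
      apply sum_congr rfl
      intro r _
      by_cases e1 : (w r).Nonempty
      · by_cases e2 : t r = v
        · rw [if_pos ⟨e1, e2⟩, if_pos e1, if_pos e2]
        · rw [if_neg (fun h => e2 h.2), if_pos e1, if_neg e2]
      · rw [if_neg (fun h => e1 h.1), if_neg e1, zero_mul]
    rw [hcard, hcard, hcard, ← sum_add_distrib,
      ← co_double (fun r => (if (ω r).Nonempty then 1 else 0) *
        (if p3rid n ω r = v then 1 else 0)) n]
    apply sum_congr rfl
    intro j hj
    rw [← add_mul, heq j hj]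
  have hq := p3_quad (p3P n ω) (p3P (2 * n) ω0) (p3P (2 * n) ω1) (p3rid n ω)
    (fun j => p3rid n ω (j / 2)) hc
  have q0 := co_psi n ω ω0 w0
  have q1 := co_psi n ω ω1 w1
  have hpsi : p3Psi n ω = ((p3P n ω ×ˢ p3P n ω).filter
    fun q => p3rid n ω q.1 = p3rid n ω q.2).card := rfl
  have hfib := hq.2 (by rw [← hpsi]; omega)
  exact ⟨co_child n ω ω0 w0 (fun v => (hfib v).1), co_child n ω ω1 w1 (fun v => (hfib v).2)⟩

end Pool.Agent.XO
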