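import Mathlib
import Pool.Agent.Lib_helper10.XO.Defs3
set_option autoImplicit false

namespace Pool.Agent.XO

open Finset

theorem ra_mono {n : ℕ} {X Y : Finset ℕ} (h : X ⊆ Y) {ι : ℕ → ℕ} (hι : p3inc n X ι) :
    p3inc n Y ι := ⟨fun i hi => h (hι.1 i hi), hι.2⟩

theorem ra_step (C : Type) (n : ℕ)
    (IH : ∀ N' : ℕ, ∃ N : ℕ, ∀ X : Finset ℕ, N ≤ X.card →
      ∀ χ : (ℕ → ℕ) → C, (∀ ι ι', (∀ i, i < n → ι i = ι' i) → χ ι = χ ι') →
      ∃ X' ⊆ X, N' ≤ X'.card ∧ ∀ ι ι', p3inc n X' ι → p3inc n X' ι' → χ ι = χ ι') (t : ℕ) :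
    ∃ N : ℕ, ∀ X : Finset ℕ, N ≤ X.card →
      ∀ χ : (ℕ → ℕ) → C, (∀ ι ι', (∀ i, i < n + 1 → ι i = ι' i) → χ ι = χ ι') →
      ∃ Y ⊆ X, t ≤ Y.card ∧ ∀ ι ι', p3inc (n + 1) Y ι → p3inc (n + 1) Y ι' → ι 0 = ι' 0 →
        χ ι = χ ι' := by
  induction t with
  | zero =>
    refine ⟨0, fun X _ χ _ => ⟨∅, Finset.empty_subset _, Nat.zero_le _, ?_⟩⟩
    intro ι ι' hι _ _
    exact absurd (hι.1 0 (Nat.succ_pos n)) (Finset.notMem_empty _)
  | succ t ih =>
    obtain ⟨Nt, hNt⟩ := ih
    obtain ⟨N1, hN1⟩ := IH Nt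
    refine ⟨N1 + 1, fun X hX χ hχ => ?_⟩
    have hne : X.Nonempty := by
      rw [← Finset.card_pos]; omega
    set x := X.min' hne with hx
    have hxX : x ∈ X := Finset.min'_mem X hne
    have hmin : ∀ y ∈ X, x ≤ y := fun y hy => Finset.min'_le X y hy
    have hcard : N1 ≤ (X.erase x).card := by
      rw [Finset.card_erase_of_mem hxX]; omega
    obtain ⟨X2, hX2, hX2c, hX2p⟩ := hN1 (X.erase x) hcard
      (fun κ => χ (fun i => if i = 0 then x else κ (i - 1))) (by
        intro κ κ' hκ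
        apply hχ
        intro i hi
        by_cases h0 : i = 0
        · simp [h0]
        · simp only [h0, if_false]
          exact hκ (i - 1) (by omega))
    obtain ⟨Y2, hY2, hY2c, hY2p⟩ := hNt X2 hX2c χ hχ
    have hxY2 : x ∉ Y2 := fun h => Finset.notMem_erase x X (hX2 (hY2 h))
    have hY2X : Y2 ⊆ X := fun y hy => Finset.mem_of_mem_erase (hX2 (hY2 hy))
    refine ⟨insert x Y2, Finset.insert_subset hxX hY2X, ?_, ?_⟩
    · rw [Finset.card_insert_of_notMem hxY2]; omega
    · intro ι ι' hι hι' h00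
      -- entries larger than `x` lie in `Y2`
      have hgt : ∀ ι : ℕ → ℕ, p3inc (n + 1) (insert x Y2) ι → ∀ i, i < n + 1 → x < ι i →
          ι i ∈ Y2 := by
        intro ι hι i hi hlt
        rcases Finset.mem_insert.mp (hι.1 i hi) with h | h
        · omega
        · exact h
      by_cases hc : ι 0 = x
      · have key : ∀ ι : ℕ → ℕ, p3inc (n + 1) (insert x Y2) ι → ι 0 = x →
            p3inc n X2 (fun i => ι (i + 1)) ∧
            χ ι = χ (fun i => if i = 0 then x else (fun i => ι (i + 1)) (i - 1)) := by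
          intro ι hι h0
          refine ⟨⟨fun i hi => hY2 (hgt ι hι (i + 1) (by omega) ?_), fun i j hij hj =>
            hι.2 (i + 1) (j + 1) (by omega) (by omega)⟩, ?_⟩
          · rw [← h0]
            exact hι.2 0 (i + 1) (by omega) (by omega)
          · apply hχ
            intro i hi
            by_cases hi0 : i = 0
            · simp [hi0, h0]
            · simp only [hi0, if_false]
              congr 1
              omega
        obtain ⟨k1, k2⟩ := key ι hι hc
        obtain ⟨k1', k2'⟩ := key ι' hι' (h00 ▸ hc)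
        rw [k2, k2']
        exact hX2p _ _ k1 k1'
      · have key : ∀ ι : ℕ → ℕ, p3inc (n + 1) (insert x Y2) ι → ι 0 ≠ x →
            p3inc (n + 1) Y2 ι := by
          intro ι hι h0
          refine ⟨fun i hi => hgt ι hι i hi ?_, hι.2⟩
          have h1 : x ≤ ι 0 := by
            rcases Finset.mem_insert.mp (hι.1 0 (by omega)) with h | h
            · omega
            · exact hmin _ (hY2X h)
          have h2 : x < ι 0 := lt_of_le_of_ne h1 (Ne.symm h0)
          rcases Nat.eq_zero_or_pos i with hi0 | hi0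
          · rw [hi0]; exact h2
          · exact h2.trans (hι.2 0 i hi0 hi)
        exact hY2p ι ι' (key ι hι hc) (key ι' hι' (h00 ▸ hc)) h00

/-- Ramsey's theorem -/
theorem p3_ramsey (C : Type) [Finite C] (n N' : ℕ) : ∃ N : ℕ, ∀ X : Finset ℕ, N ≤ X.card →
    ∀ χ : (ℕ → ℕ) → C, (∀ ι ι', (∀ i, i < n → ι i = ι' i) → χ ι = χ ι') →
    ∃ X' ⊆ X, N' ≤ X'.card ∧ ∀ ι ι', p3inc n X' ι → p3inc n X' ι' → χ ι = χ ι' := by
  classical
  have : Fintype C := Fintype.ofFinite C
  induction n generalizing N' with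
  | zero =>
    exact ⟨N', fun X hX χ hχ => ⟨X, Finset.Subset.refl _, hX, fun ι ι' _ _ =>
      hχ ι ι' fun i hi => absurd hi (Nat.not_lt_zero i)⟩⟩
  | succ n ih =>
    obtain ⟨N, hN⟩ := ra_step C n ih (Fintype.card C * N')
    refine ⟨N, fun X hX χ hχ => ?_⟩
    obtain ⟨Y, hYX, hYc, hYp⟩ := hN X hX χ hχ
    let g : ℕ → C := fun x => if h : ∃ ι, p3inc (n + 1) Y ι ∧ ι 0 = x then χ h.choose
      else χ (fun _ => 0)
    have hne : (Finset.univ : Finset C).Nonempty := ⟨χ fun _ => 0, Finset.mem_univ _⟩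
    obtain ⟨c, _, hc⟩ := Finset.exists_le_card_fiber_of_mul_le_card_of_maps_to (s := Y)
      (t := (Finset.univ : Finset C)) (f := g) (n := N') (fun a _ => Finset.mem_univ _) hne
      (by rw [Finset.card_univ]; exact hYc)
    refine ⟨Y.filter fun x => g x = c, (Finset.filter_subset _ _).trans hYX, hc, ?_⟩
    have key : ∀ ι : ℕ → ℕ, p3inc (n + 1) (Y.filter fun x => g x = c) ι → χ ι = c := by
      intro ι hι
      have h1 : p3inc (n + 1) Y ι := ra_mono (Finset.filter_subset _ _) hι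
      have h2 : g (ι 0) = c := (Finset.mem_filter.mp (hι.1 0 (Nat.succ_pos n))).2
      have h3 : ∃ ι', p3inc (n + 1) Y ι' ∧ ι' 0 = ι 0 := ⟨ι, h1, rfl⟩
      have h4 : g (ι 0) = χ h3.choose := by
        simp only [g]
        rw [dif_pos h3]
      rw [← h2, h4]
      exact hYp ι _ h1 h3.choose_spec.1 h3.choose_spec.2.symm
    intro ι ι' hι hι'
    rw [key ι hι, key ι' hι']

end Pool.Agent.XO
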