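import Mathlib
import Pool.Agent.Lib_helper10.XO.Defs3
set_option autoImplicit false

namespace Pool.Agent.XO

open Finset

theorem tr_T_congr {S : Type} (σ : S → S → S × S) (b : List Bool) : ∀ (x x' : ℕ → S),
    (∀ i, i < 2 ^ b.length → x i = x' i) → p3T σ b x = p3T σ b x' := by
  induction b with
  | nil =>
    intro x x' h
    simpa [p3T] using h 0 (by simp)
  | cons β b ih =>
    intro x x' h
    have hl : 2 ^ (β :: b).length = 2 * 2 ^ b.length := by
      rw [List.length_cons, pow_succ]; ring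
    rw [hl] at h
    have h0 := ih (fun i => x (2 * i)) (fun i => x' (2 * i)) (fun i hi => h _ (by omega))
    have h1 := ih (fun i => x (2 * i + 1)) (fun i => x' (2 * i + 1)) (fun i hi => h _ (by omega))
    cases β <;> simp only [p3T, h0, h1]

/-- only the first `2 ^ b.length` entries matter -/
theorem p3_T_congr {S : Type} (σ : S → S → S × S) (b : List Bool) (x x' : ℕ → S)
    (h : ∀ i, i < 2 ^ b.length → x i = x' i) : p3T σ b x = p3T σ b x' :=
  tr_T_congr σ b x x' h

/-- a term can be evaluated inside a tuple -/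
theorem p3_reach {S : Type} {M : ℕ} (σ : S → S → S × S) (y : Fin M → S) (b : List Bool)
    (ι : ℕ → Fin M) (hι : ∀ i j, i < 2 ^ b.length → j < 2 ^ b.length → ι i = ι j → i = j)
    (g : ℕ) (c : Fin M → S) (hc : Reach σ y g c) :
    ∃ (c' : Fin M → S) (a : Fin M), Reach σ y (g + (2 ^ b.length - 1)) c' ∧
      (∃ r, r < 2 ^ b.length ∧ a = ι r) ∧ c' a = p3T σ b (fun i => c (ι i)) ∧
      ∀ j, (∀ r, r < 2 ^ b.length → j ≠ ι r) → c' j = c j := by
  induction b generalizing ι g c with
  | nil =>
    exact ⟨c, ι 0, by simpa using hc, ⟨0, by simp, rfl⟩, rfl, fun j _ => rfl⟩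
  | cons β b ih =>
    have hl : 2 ^ (β :: b).length = 2 * 2 ^ b.length := by
      rw [List.length_cons, pow_succ]; ring
    have h1 : 1 ≤ 2 ^ b.length := Nat.one_le_two_pow
    rw [hl] at hι ⊢
    generalize hk : 2 ^ b.length = k at *
    obtain ⟨c1, a0, hr1, ⟨r0, hr0, ha0⟩, hv1, ho1⟩ := ih (fun i => ι (2 * i))
      (fun i j hi hj hij => by have := hι _ _ (by omega) (by omega) hij; omega) g c hc
    obtain ⟨c2, a1, hr2, ⟨r1, hr1', ha1⟩, hv2, ho2⟩ := ih (fun i => ι (2 * i + 1))
      (fun i j hi hj hij => by have := hι _ _ (by omega) (by omega) hij; omega)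
      (g + (k - 1)) c1 hr1
    have hne : ∀ i j, i < k → j < k → ι (2 * i) ≠ ι (2 * j + 1) := by
      intro i j hi hj hij
      have := hι _ _ (by omega) (by omega) hij
      omega
    have hab : a0 ≠ a1 := by rw [ha0, ha1]; exact hne _ _ hr0 hr1'
    have hc2a0 : c2 a0 = p3T σ b (fun i => c (ι (2 * i))) := by
      rw [ho2 a0 (fun r hr => by rw [ha0]; exact hne _ _ hr0 hr), hv1]
    have hc2a1 : c2 a1 = p3T σ b (fun i => c (ι (2 * i + 1))) := by
      rw [hv2]
      refine tr_T_congr σ b _ _ fun i hi => ?_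
      rw [hk] at hi
      exact ho1 _ fun r hr => (hne _ _ hr hi).symm
    have hstep := Reach.step a0 a1 hab hr2
    have hnum : g + (k - 1) + (k - 1) + 1 = g + (2 * k - 1) := by omega
    rw [hnum] at hstep
    have hout : ∀ j, (∀ r, r < 2 * k → j ≠ ι r) →
        Function.update (Function.update c2 a0 (σ (c2 a0) (c2 a1)).1) a1
          (σ (c2 a0) (c2 a1)).2 j = c j := by
      intro j hj
      have hj0 : j ≠ a0 := by rw [ha0]; exact hj _ (by omega)
      have hj1 : j ≠ a1 := by rw [ha1]; exact hj _ (by omega)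
      rw [Function.update_of_ne hj1, Function.update_of_ne hj0,
        ho2 j (fun r hr => hj _ (by omega)), ho1 j (fun r hr => hj _ (by omega))]
    cases β with
    | false =>
      refine ⟨_, a0, hstep, ⟨2 * r0, by omega, ha0⟩, ?_, hout⟩
      rw [Function.update_of_ne hab, Function.update_self, hc2a0, hc2a1]
      rfl
    | true =>
      refine ⟨_, a1, hstep, ⟨2 * r1 + 1, by omega, ha1⟩, ?_, hout⟩
      rw [Function.update_self, hc2a0, hc2a1]
      rfl

end Pool.Agent.XO
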