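import Mathlib
import Pool.Agent.Lib_helper10.XO.Defs3
import Pool.Agent.Lib_helper10.XO.P3.RA
import Pool.Agent.Lib_helper10.XO.P3.TR
set_option autoImplicit false

namespace Pool.Agent.XO

open Finset

/-- both children of a term are homogeneous on a large subset -/
theorem p3_hom (Λ k N' : ℕ) : ∃ N : ℕ, ∀ {S : Type} (e : S → ℝ) (σ : S → S → S × S)
    (w : S → ℕ → Finset (Fin Λ)) (y : ℕ → S), (∀ x, e x = 1 ∨ e x = -1) →
    ∀ (X : Finset ℕ), N ≤ X.card → ∀ b : List Bool, b.length = k →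
    ∃ X' ⊆ X, N' ≤ X'.card ∧ ∃ ω ε, P3Hom e σ w y X' b ω ε := by
  classical
  obtain ⟨N, hN⟩ := p3_ramsey (Bool × (Fin (2 ^ k) → Finset (Fin Λ))) (2 ^ k) N'
  refine ⟨N, ?_⟩
  intro S e σ w y he X hX b hb
  obtain ⟨X', hX', hcard, hχ⟩ := hN X hX
    (fun ι => (decide (e (p3T σ b fun r => y (ι r)) = 1),
      fun r : Fin (2 ^ k) => w (p3T σ b fun r => y (ι r)) (ι r))) (by
    intro ι ι' hιι
    have hT : (p3T σ b fun r => y (ι r)) = p3T σ b fun r => y (ι' r) :=
      p3_T_congr σ b _ _ (fun i hi => by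
        rw [hb] at hi
        show y (ι i) = y (ι' i)
        rw [hιι i hi])
    refine Prod.ext ?_ ?_
    · show decide (e (p3T σ b fun r => y (ι r)) = 1) = decide (e (p3T σ b fun r => y (ι' r)) = 1)
      rw [hT]
    · funext r
      show w (p3T σ b fun r => y (ι r)) (ι r) = w (p3T σ b fun r => y (ι' r)) (ι' r)
      rw [hT, hιι r r.2])
  refine ⟨X', hX', hcard, ?_⟩
  by_cases hex : ∃ ι0, p3inc (2 ^ k) X' ι0
  · obtain ⟨ι0, hι0⟩ := hex
    refine ⟨fun r => w (p3T σ b fun r => y (ι0 r)) (ι0 r), e (p3T σ b fun r => y (ι0 r)), ?_⟩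
    intro ι hι
    rw [hb] at hι
    have h1 := hχ ι ι0 hι hι0
    have h2 : decide (e (p3T σ b fun r => y (ι r)) = 1) =
        decide (e (p3T σ b fun r => y (ι0 r)) = 1) := congrArg Prod.fst h1
    have h3 := congrArg Prod.snd h1
    refine ⟨?_, ?_⟩
    · have h4 : (e (p3T σ b fun r => y (ι r)) = 1) ↔ (e (p3T σ b fun r => y (ι0 r)) = 1) := by
        simpa using h2
      rcases he (p3T σ b fun r => y (ι r)) with h5 | h5 <;>
        rcases he (p3T σ b fun r => y (ι0 r)) with h6 | h6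
      · rw [h5, h6]
      · exact absurd (h4.mp h5) (by rw [h6]; norm_num)
      · exact absurd (h4.mpr h6) (by rw [h5]; norm_num)
      · rw [h5, h6]
    · intro r hr
      rw [hb] at hr
      exact congrFun h3 ⟨r, hr⟩
  · refine ⟨fun _ => ∅, 1, ?_⟩
    intro ι hι
    rw [hb] at hι
    exact absurd ⟨ι, hι⟩ hex

end Pool.Agent.XO
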