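import Mathlib
import Pool.Agent.Lib_helper10.XO.Defs3
set_option autoImplicit false

namespace Pool.Agent.XO

open Finset

/-- the increasing enumeration -/
theorem ge_enum (X : Finset ℕ) : ∃ x : ℕ → ℕ, (∀ m, m < X.card → x m ∈ X) ∧
    ∀ m m', m < m' → m' < X.card → x m < x m' := by
  refine ⟨fun m => if h : m < X.card then X.orderEmbOfFin rfl ⟨m, h⟩ else 0, ?_, ?_⟩
  · intro m hm
    simp only [dif_pos hm]
    exact Finset.orderEmbOfFin_mem _ _ _
  · intro m m' hmm hm'
    have hm : m < X.card := by omega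
    simp only [dif_pos hm, dif_pos hm']
    exact (X.orderEmbOfFin rfl).strictMono (by simpa using hmm)

theorem ge_digit {n a b a' b' : ℕ} (hb : b ≤ n) (hb' : b' ≤ n)
    (h : a * (n + 1) + b = a' * (n + 1) + b') : b = b' := by
  have h1 := congrArg (fun t => t % (n + 1)) h
  simpa [Nat.add_mod, Nat.mod_eq_of_lt (Nat.lt_succ_of_le hb),
    Nat.mod_eq_of_lt (Nat.lt_succ_of_le hb')] using h1

theorem p3_geom (n : ℕ) (P Q : Finset ℕ) (hP : P ⊆ range n) (hQ : Q ⊆ range (2 * n))
    (f : ℕ → ℕ) (hf : ∀ i ∈ P, f i ∈ Q) (hmono : ∀ i ∈ P, ∀ j ∈ P, i < j → f i < f j)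
    (hsurj : ∀ q ∈ Q, ∃ i ∈ P, f i = q) (X : Finset ℕ) (hX : 2 * n * (n + 1) + n < X.card) :
    ∃ ι J : ℕ → ℕ, p3inc (2 * n) X ι ∧ p3inc n X J ∧ (∀ r ∈ P, J r = ι (f r)) ∧
      (∀ r, r < n → r ∉ P → ∀ j, j < 2 * n → J r ≠ ι j) ∧
      (∀ j, j < 2 * n → j ∉ Q → ∀ r, r < n → ι j ≠ J r) := by
  classical
  obtain ⟨x, hxm, hxs⟩ := ge_enum X
  -- injectivity of the enumeration
  have hxi : ∀ m m', m < X.card → m' < X.card → x m = x m' → m = m' := by
    intro m m' hm hm' he
    rcases lt_trichotomy m m' with h | h | h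
    · have := hxs m m' h hm'; omega
    · exact h
    · have := hxs m' m h hm; omega
  set F : ℕ → ℕ := fun r => (P.filter fun p => p ≤ r).sup fun p => f p + 1 with hF
  have hFmono : ∀ r r', r ≤ r' → F r ≤ F r' := by
    intro r r' h
    refine Finset.sup_mono fun p hp => ?_
    rw [Finset.mem_filter] at hp ⊢
    exact ⟨hp.1, hp.2.trans h⟩
  have hF2 : ∀ r, F r ≤ 2 * n := by
    intro r
    refine Finset.sup_le fun p hp => ?_
    have h1 := hQ (hf p (Finset.mem_filter.1 hp).1)
    rw [Finset.mem_range] at h1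
    omega
  have hFP : ∀ r ∈ P, F r = f r + 1 := by
    intro r hr
    refine le_antisymm (Finset.sup_le fun p hp => ?_) ?_
    · obtain ⟨hp1, hp2⟩ := Finset.mem_filter.1 hp
      rcases Nat.lt_or_ge p r with h | h
      · have := hmono p hp1 r hr h; omega
      · have : p = r := by omega
        rw [this]
    · exact Finset.le_sup (f := fun p => f p + 1) (Finset.mem_filter.2 ⟨hr, le_rfl⟩)
  have hinj : ∀ i ∈ P, ∀ j ∈ P, f i = f j → i = j := by
    intro i hi j hj he
    rcases lt_trichotomy i j with h | h | h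
    · have := hmono i hi j hj h; omega
    · exact h
    · have := hmono j hj i hi h; omega
  set s : ℕ → ℕ := fun j => if h : ∃ i ∈ P, f i = j then h.choose else n with hs
  have hs1 : ∀ r ∈ P, s (f r) = r := by
    intro r hr
    have h : ∃ i ∈ P, f i = f r := ⟨r, hr, rfl⟩
    simp only [hs, dif_pos h]
    exact hinj _ h.choose_spec.1 r hr h.choose_spec.2
  have hs2 : ∀ j, (s j ∈ P ∧ f (s j) = j) ∨ s j = n := by
    intro j
    by_cases h : ∃ i ∈ P, f i = j
    · left
      simp only [hs, dif_pos h]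
      exact h.choose_spec
    · right
      simp only [hs, dif_neg h]
  have hs3 : ∀ j, s j ≤ n := by
    intro j
    rcases hs2 j with h | h
    · have := Finset.mem_range.1 (hP h.1); omega
    · omega
  -- the bound of the indices
  have hb : ∀ a b, a ≤ 2 * n → b ≤ n → a * (n + 1) + b < X.card := by
    intro a b ha hb
    have : a * (n + 1) ≤ 2 * n * (n + 1) := Nat.mul_le_mul_right _ ha
    omega
  have hne : ∀ r, r < n → ∀ j, j < 2 * n →
      x (F r * (n + 1) + r) = x ((j + 1) * (n + 1) + s j) → s j = r := by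
    intro r hr j hj he
    have h1 := hxi _ _ (hb _ _ (hF2 r) hr.le) (hb (j + 1) (s j) (by omega) (hs3 j)) he
    exact (ge_digit hr.le (hs3 j) h1).symm
  refine ⟨fun j => x ((j + 1) * (n + 1) + s j), fun r => x (F r * (n + 1) + r),
    ⟨fun j hj => hxm _ (hb _ _ (by omega) (hs3 j)), fun j j' hjj hj' => hxs _ _ ?_
      (hb _ _ (by omega) (hs3 j'))⟩,
    ⟨fun r hr => hxm _ (hb _ _ (hF2 r) hr.le), fun r r' hrr hr' => hxs _ _ ?_
      (hb _ _ (hF2 r') hr'.le)⟩, ?_, ?_, ?_⟩
  · have h1 := hs3 j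
    have h2 : (j + 1 + 1) * (n + 1) ≤ (j' + 1) * (n + 1) := Nat.mul_le_mul_right _ (by omega)
    have h3 : (j + 1 + 1) * (n + 1) = (j + 1) * (n + 1) + (n + 1) := by ring
    omega
  · have h1 : F r * (n + 1) ≤ F r' * (n + 1) := Nat.mul_le_mul_right _ (hFmono _ _ hrr.le)
    omega
  · intro r hr
    simp only [hFP r hr, hs1 r hr]
  · intro r hr hrP j hj he
    have h1 := hne r hr j hj he
    rcases hs2 j with h | h
    · rw [h1] at h; exact hrP h.1
    · omega
  · intro j hj hjQ r hr he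
    have h1 := hne r hr j hj he.symm
    rcases hs2 j with h | h
    · exact hjQ (h.2 ▸ hf _ h.1)
    · omega

end Pool.Agent.XO
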