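import Mathlib
import Pool.Agent.Lib_helper10.XO.Defs3
import Pool.Agent.Lib_helper10.XO.P3.GE
import Pool.Agent.Lib_helper10.XO.P3.TR
set_option autoImplicit false

namespace Pool.Agent.XO

open Finset

theorem sa_inc_sub {n : ℕ} {X Y : Finset ℕ} (h : X ⊆ Y) {ι : ℕ → ℕ} (hι : p3inc n X ι) :
    p3inc n Y ι := ⟨fun i hi => h (hι.1 i hi), hι.2⟩

theorem p3_same {S : Type} {Λ D M : ℕ} {e : S → ℝ} {σ : S → S → S × S}
    {w : S → ℕ → Finset (Fin Λ)} {y : ℕ → S} (h : P3Sys Λ D M e σ w y) (X : Finset ℕ)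
    (hX : X ⊆ range M) (b : List Bool) (β : Bool) (hb : b.length < D)
    (ω ω' : ℕ → Finset (Fin Λ)) (ε ε' : ℝ) (hω : P3Hom e σ w y X b ω ε)
    (hω' : P3Hom e σ w y X (β :: b) ω' ε') (f : ℕ → ℕ)
    (hf : p3iso (2 ^ b.length) ω (2 * 2 ^ b.length) ω' f)
    (hc : 2 * 2 ^ b.length * (2 ^ b.length + 1) + 2 ^ b.length < X.card) : ε = ε' := by
  obtain ⟨ι, J, hι, hJ, h1, h2, h3⟩ := p3_geom (2 ^ b.length) (p3P (2 ^ b.length) ω)
    (p3P (2 * 2 ^ b.length) ω') (filter_subset _ _) (filter_subset _ _) f hf.maps hf.mono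
    hf.surj X hc
  have hlen : 2 ^ (β :: b).length = 2 * 2 ^ b.length := by
    rw [List.length_cons, pow_succ, mul_comm]
  have hι' : p3inc (2 ^ (β :: b).length) X ι := by rw [hlen]; exact hι
  obtain ⟨he', hw'⟩ := hω' ι hι'
  obtain ⟨he, hw⟩ := hω J hJ
  rw [hlen] at hw'
  rw [← he, ← he']
  have hlD : (β :: b).length ≤ D := by rw [List.length_cons]; omega
  refine h.uniq b (β :: b) hb.le hlD J ι (sa_inc_sub hX hJ) (sa_inc_sub hX hι') ?_
  intro i
  by_cases hi : ∃ j, j < 2 * 2 ^ b.length ∧ i = ι j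
  · obtain ⟨j, hj, rfl⟩ := hi
    rw [hw' j hj]
    by_cases hq : j ∈ p3P (2 * 2 ^ b.length) ω'
    · obtain ⟨r, hr, hfr⟩ := hf.surj j hq
      have hrn : r < 2 ^ b.length := mem_range.1 (mem_filter.1 hr).1
      have hJr := h1 r hr
      rw [hfr] at hJr
      rw [← hJr, hw r hrn, ← hf.letter r hr, hfr]
    · have hem : ω' j = ∅ := by
        by_contra hne
        exact hq (mem_filter.2 ⟨mem_range.2 hj, nonempty_iff_ne_empty.2 hne⟩)
      rw [hem]
      exact h.supp b hb.le J (sa_inc_sub hX hJ) _ fun r hr => h3 j hj hq r hr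
  · have hni : ∀ j, j < 2 ^ (β :: b).length → i ≠ ι j := by
      intro j hj hij
      rw [hlen] at hj
      exact hi ⟨j, hj, hij⟩
    rw [h.supp (β :: b) hlD ι (sa_inc_sub hX hι') i hni]
    by_cases hi2 : ∃ r, r < 2 ^ b.length ∧ i = J r
    · obtain ⟨r, hr, rfl⟩ := hi2
      rw [hw r hr]
      by_contra hne
      have hrP : r ∈ p3P (2 ^ b.length) ω :=
        mem_filter.2 ⟨mem_range.2 hr, nonempty_iff_ne_empty.2 hne⟩
      have hfQ := hf.maps r hrP
      exact hi ⟨f r, mem_range.1 (mem_filter.1 hfQ).1, h1 r hrP⟩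
    · exact h.supp b hb.le J (sa_inc_sub hX hJ) _ fun r hr hir => hi2 ⟨r, hr, hir⟩

end Pool.Agent.XO
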