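import Mathlib
import Pool.Agent.Lib_helper10.XO.Defs3
import Pool.Agent.Lib_helper10.XO.P3.TR
set_option autoImplicit false

namespace Pool.Agent.XO

open Finset

theorem ga_pow (k : ℕ) : 2 ^ (k + 1) = 2 * 2 ^ k := by
  rw [pow_succ, mul_comm]

/-- the two halves are computed one after the other -/
theorem ga_pair {S : Type} {M : ℕ} (σ : S → S → S × S) (y : Fin M → S) (b : List Bool)
    (ι : ℕ → Fin M)
    (hι : ∀ i j, i < 2 ^ (b.length + 1) → j < 2 ^ (b.length + 1) → ι i = ι j → i = j) :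
    ∃ (g : ℕ) (c : Fin M → S) (a0 a1 : Fin M), g + 2 ≤ 2 ^ (b.length + 1) ∧ Reach σ y g c ∧
      a0 ≠ a1 ∧ c a0 = p3T σ b (fun r => y (ι (2 * r))) ∧
      c a1 = p3T σ b (fun r => y (ι (2 * r + 1))) := by
  have hp := ga_pow b.length
  have hpos : 0 < 2 ^ b.length := Nat.two_pow_pos _
  have hι0 : ∀ i j, i < 2 ^ b.length → j < 2 ^ b.length → ι (2 * i) = ι (2 * j) → i = j := by
    intro i j hi hj h
    have := hι (2 * i) (2 * j) (by omega) (by omega) h
    omega
  have hι1 : ∀ i j, i < 2 ^ b.length → j < 2 ^ b.length →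
      ι (2 * i + 1) = ι (2 * j + 1) → i = j := by
    intro i j hi hj h
    have := hι (2 * i + 1) (2 * j + 1) (by omega) (by omega) h
    omega
  obtain ⟨c1, a0, r1, ⟨r0, hr0, ha0⟩, v1, e1⟩ :=
    p3_reach σ y b (fun r => ι (2 * r)) hι0 0 y Reach.zero
  obtain ⟨c2, a1, r2, ⟨r1', hr1, ha1⟩, v2, e2⟩ :=
    p3_reach σ y b (fun r => ι (2 * r + 1)) hι1 _ c1 r1
  have hne : a0 ≠ a1 := by
    intro h
    rw [ha0, ha1] at h
    have := hι (2 * r0) (2 * r1' + 1) (by omega) (by omega) h
    omega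
  refine ⟨_, c2, a0, a1, ?_, r2, hne, ?_, ?_⟩
  · omega
  · rw [e2 a0, v1]
    intro r hr h
    rw [ha0] at h
    have := hι (2 * r0) (2 * r + 1) (by omega) (by omega) h
    omega
  · rw [v2]
    apply p3_T_congr
    intro i hi
    show c1 (ι (2 * i + 1)) = y (ι (2 * i + 1))
    apply e1
    intro r hr h
    have := hι (2 * i + 1) (2 * r) (by omega) (by omega) h
    omega

theorem ga_union {S : Type} {M : ℕ} {K : S → Finset ℕ} (c c' : Fin M → S) (a0 a1 : Fin M)
    (hd : ∀ a b, a ≠ b → Disjoint (K (c' a)) (K (c' b)))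
    (he : ∀ a, a ≠ a0 → a ≠ a1 → c' a = c a)
    (hu : (univ.biUnion fun a => K (c a)) = univ.biUnion fun a => K (c' a)) :
    K (c' a0) ∪ K (c' a1) ⊆ K (c a0) ∪ K (c a1) := by
  intro x hx
  have h1 : x ∈ univ.biUnion fun a => K (c a) := by
    rw [hu, mem_biUnion]
    rw [mem_union] at hx
    rcases hx with hx | hx
    · exact ⟨a0, mem_univ _, hx⟩
    · exact ⟨a1, mem_univ _, hx⟩
  rw [mem_biUnion] at h1
  obtain ⟨a, _, ha⟩ := h1
  rw [mem_union]
  by_cases h0 : a = a0
  · rw [← h0]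
    exact Or.inl ha
  by_cases h2 : a = a1
  · rw [← h2]
    exact Or.inr ha
  exfalso
  rw [← he a h0 h2] at ha
  rw [mem_union] at hx
  rcases hx with hx | hx
  · exact (disjoint_left.1 (hd a a0 h0)) ha hx
  · exact (disjoint_left.1 (hd a a1 h2)) ha hx

/-- conservation and the sign at the last gate -/
theorem p3_gate {S : Type} {M Λ G : ℕ} {e : S → ℝ} {σ : S → S → S × S} {K : S → Finset ℕ}
    {y : Fin M → S} (h : ACT Λ G e σ K y) (b : List Bool) (hG : 2 ^ (b.length + 1) ≤ G)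
    (ι : ℕ → Fin M)
    (hι : ∀ i j, i < 2 ^ (b.length + 1) → j < 2 ^ (b.length + 1) → ι i = ι j → i = j) :
    K (p3T σ (false :: b) fun r => y (ι r)) ∪ K (p3T σ (true :: b) fun r => y (ι r))
        = K (p3T σ b fun r => y (ι (2 * r))) ∪ K (p3T σ b fun r => y (ι (2 * r + 1))) ∧
    Disjoint (K (p3T σ (false :: b) fun r => y (ι r)))
      (K (p3T σ (true :: b) fun r => y (ι r))) ∧
    e (p3T σ (false :: b) fun r => y (ι r)) * e (p3T σ (true :: b) fun r => y (ι r))
      = -(e (p3T σ b fun r => y (ι (2 * r))) * e (p3T σ b fun r => y (ι (2 * r + 1)))) := by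
  obtain ⟨g, c, a0, a1, hg, hr, hne, v0, v1⟩ := ga_pair σ y b ι hι
  have hr3 := Reach.step a0 a1 hne hr
  set c3 : Fin M → S := Function.update (Function.update c a0 (σ (c a0) (c a1)).1) a1
    (σ (c a0) (c a1)).2 with hc3
  have w0 : c3 a0 = (σ (c a0) (c a1)).1 := by
    rw [hc3, Function.update_of_ne hne, Function.update_self]
  have w1 : c3 a1 = (σ (c a0) (c a1)).2 := by
    rw [hc3, Function.update_self]
  have he : ∀ a, a ≠ a0 → a ≠ a1 → c3 a = c a := by
    intro a h0 h1
    rw [hc3, Function.update_of_ne h1, Function.update_of_ne h0]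
  have t0 : p3T σ (false :: b) (fun r => y (ι r)) = c3 a0 := by
    rw [w0, v0, v1]
    rfl
  have t1 : p3T σ (true :: b) (fun r => y (ι r)) = c3 a1 := by
    rw [w1, v0, v1]
    rfl
  rw [t0, t1, ← v0, ← v1]
  have hd := h.disj g (by omega) c hr
  have hd3 := h.disj (g + 1) (by omega) c3 hr3
  have hu : (univ.biUnion fun a => K (c a)) = univ.biUnion fun a => K (c3 a) := by
    rw [h.cons g (by omega) c hr, h.cons (g + 1) (by omega) c3 hr3]
  refine ⟨?_, hd3 a0 a1 hne, ?_⟩
  · apply Subset.antisymm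
    · exact ga_union c c3 a0 a1 hd3 he hu
    · exact ga_union c3 c a0 a1 hd (fun a h0 h1 => (he a h0 h1).symm) hu.symm
  · rw [w0, w1]
    exact h.flip g (by omega) c hr a0 a1 hne

/-- the atoms of a term come from its variables -/
theorem p3_sub {S : Type} {M Λ G : ℕ} {e : S → ℝ} {σ : S → S → S × S} {K : S → Finset ℕ}
    {y : Fin M → S} (h : ACT Λ G e σ K y) (b : List Bool) (hG : 2 ^ b.length ≤ G)
    (ι : ℕ → Fin M) (hι : ∀ i j, i < 2 ^ b.length → j < 2 ^ b.length → ι i = ι j → i = j) :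
    K (p3T σ b fun r => y (ι r)) ⊆ (range (2 ^ b.length)).biUnion fun r => K (y (ι r)) := by
  induction b generalizing ι with
  | nil =>
    intro x hx
    rw [mem_biUnion]
    exact ⟨0, by simp, hx⟩
  | cons β b ih =>
    have hp := ga_pow b.length
    have hpos : 0 < 2 ^ b.length := Nat.two_pow_pos _
    have hl : (β :: b).length = b.length + 1 := rfl
    rw [hl] at hG hι ⊢
    have hg := (p3_gate h b hG ι hι).1
    have hι0 : ∀ i j, i < 2 ^ b.length → j < 2 ^ b.length → ι (2 * i) = ι (2 * j) → i = j := by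
      intro i j hi hj h
      have := hι (2 * i) (2 * j) (by omega) (by omega) h
      omega
    have hι1 : ∀ i j, i < 2 ^ b.length → j < 2 ^ b.length →
        ι (2 * i + 1) = ι (2 * j + 1) → i = j := by
      intro i j hi hj h
      have := hι (2 * i + 1) (2 * j + 1) (by omega) (by omega) h
      omega
    have i0 := ih (by omega) (fun r => ι (2 * r)) hι0
    have i1 := ih (by omega) (fun r => ι (2 * r + 1)) hι1
    intro x hx
    have hx2 : x ∈ K (p3T σ (false :: b) fun r => y (ι r)) ∪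
        K (p3T σ (true :: b) fun r => y (ι r)) := by
      rw [mem_union]
      cases β
      · exact Or.inl hx
      · exact Or.inr hx
    rw [hg, mem_union] at hx2
    rw [mem_biUnion]
    rcases hx2 with hx2 | hx2
    · have := i0 hx2
      rw [mem_biUnion] at this
      obtain ⟨r, hr, hxr⟩ := this
      rw [mem_range] at hr
      exact ⟨2 * r, mem_range.2 (by omega), hxr⟩
    · have := i1 hx2
      rw [mem_biUnion] at this
      obtain ⟨r, hr, hxr⟩ := this
      rw [mem_range] at hr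
      exact ⟨2 * r + 1, mem_range.2 (by omega), hxr⟩

/-- elements with the same atoms have the same sign -/
theorem p3_uniq {S : Type} {M Λ G : ℕ} {e : S → ℝ} {σ : S → S → S × S} {K : S → Finset ℕ}
    {y : Fin M → S} (h : ACT Λ G e σ K y) (b b' : List Bool) (hG : 2 ^ b.length ≤ G)
    (hG' : 2 ^ b'.length ≤ G) (ι ι' : ℕ → Fin M)
    (hι : ∀ i j, i < 2 ^ b.length → j < 2 ^ b.length → ι i = ι j → i = j)
    (hι' : ∀ i j, i < 2 ^ b'.length → j < 2 ^ b'.length → ι' i = ι' j → i = j)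
    (hK : K (p3T σ b fun r => y (ι r)) = K (p3T σ b' fun r => y (ι' r))) :
    e (p3T σ b fun r => y (ι r)) = e (p3T σ b' fun r => y (ι' r)) := by
  obtain ⟨c, a, hr, _, v, _⟩ := p3_reach σ y b ι hι 0 y Reach.zero
  obtain ⟨c', a', hr', _, v', _⟩ := p3_reach σ y b' ι' hι' 0 y Reach.zero
  rw [← v, ← v'] at hK ⊢
  exact h.uniq _ (by omega) _ (by omega) c c' hr hr' a a' hK

end Pool.Agent.XO
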