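import Mathlib
import Pool.Agent.Lib_helper10.XO.Defs3
import Pool.Agent.Lib_helper10.XO.P3.TR
import Pool.Agent.Lib_helper10.XO.P3.GA
set_option autoImplicit false

namespace Pool.Agent.XO

open Finset

/-- the rank of `a` in `A` -/
def sy_rk (A : Finset ℕ) (a : ℕ) : ℕ := (A.filter fun b => b < a).card

theorem sy_rk_lt {A : Finset ℕ} {a : ℕ} (ha : a ∈ A) : sy_rk A a < A.card := by
  unfold sy_rk
  refine Finset.card_lt_card ?_
  rw [Finset.ssubset_iff_of_subset (Finset.filter_subset _ _)]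
  exact ⟨a, ha, by simp⟩

theorem sy_rk_lt_rk {A : Finset ℕ} {a b : ℕ} (ha : a ∈ A) (hab : a < b) :
    sy_rk A a < sy_rk A b := by
  unfold sy_rk
  refine Finset.card_lt_card ?_
  rw [Finset.ssubset_iff_of_subset]
  · exact ⟨a, by rw [Finset.mem_filter]; exact ⟨ha, hab⟩, by simp⟩
  · intro c hc
    rw [Finset.mem_filter] at hc ⊢
    exact ⟨hc.1, hc.2.trans hab⟩

theorem sy_rk_inj {A : Finset ℕ} {a b : ℕ} (ha : a ∈ A) (hb : b ∈ A)
    (h : sy_rk A a = sy_rk A b) : a = b := by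
  rcases lt_trichotomy a b with hlt | heq | hgt
  · have := sy_rk_lt_rk ha hlt; omega
  · exact heq
  · have := sy_rk_lt_rk hb hgt; omega

open Classical in
/-- the labels of the elements of `T` in the `i`-th block -/
noncomputable def sy_L {M Λ : ℕ} (A : Fin M → Finset ℕ) (T : Finset ℕ) (i : ℕ) :
    Finset (Fin Λ) :=
  univ.filter fun l => ∃ hi : i < M, ∃ a ∈ A ⟨i, hi⟩, a ∈ T ∧ sy_rk (A ⟨i, hi⟩) a = (l : ℕ)

theorem sy_L_union {M Λ : ℕ} (A : Fin M → Finset ℕ) (T T' : Finset ℕ) (i : ℕ) :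
    (sy_L A (T ∪ T') i : Finset (Fin Λ)) = sy_L A T i ∪ sy_L A T' i := by
  classical
  ext l
  unfold sy_L
  simp only [Finset.mem_filter, Finset.mem_univ, true_and, Finset.mem_union]
  constructor
  · rintro ⟨hi, a, ha, haT, hl⟩
    rcases haT with h | h
    · exact Or.inl ⟨hi, a, ha, h, hl⟩
    · exact Or.inr ⟨hi, a, ha, h, hl⟩
  · rintro (⟨hi, a, ha, h, hl⟩ | ⟨hi, a, ha, h, hl⟩)
    · exact ⟨hi, a, ha, Or.inl h, hl⟩
    · exact ⟨hi, a, ha, Or.inr h, hl⟩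

theorem sy_L_disj {M Λ : ℕ} (A : Fin M → Finset ℕ) (T T' : Finset ℕ) (h : Disjoint T T')
    (i : ℕ) : Disjoint (sy_L A T i : Finset (Fin Λ)) (sy_L A T' i) := by
  classical
  rw [Finset.disjoint_left]
  intro l hl hl'
  unfold sy_L at hl hl'
  simp only [Finset.mem_filter, Finset.mem_univ, true_and] at hl hl'
  obtain ⟨hi, a, ha, haT, hal⟩ := hl
  obtain ⟨_, a', ha', haT', hal'⟩ := hl'
  have : a = a' := sy_rk_inj ha ha' (hal.trans hal'.symm)
  subst this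
  exact (Finset.disjoint_left.1 h) haT haT'

theorem sy_L_empty {M Λ : ℕ} (A : Fin M → Finset ℕ) (T : Finset ℕ) (i : ℕ)
    (h : ∀ hi : i < M, Disjoint T (A ⟨i, hi⟩)) : (sy_L A T i : Finset (Fin Λ)) = ∅ := by
  classical
  rw [Finset.eq_empty_iff_forall_notMem]
  intro l hl
  unfold sy_L at hl
  simp only [Finset.mem_filter, Finset.mem_univ, true_and] at hl
  obtain ⟨hi, a, ha, haT, -⟩ := hl
  exact (Finset.disjoint_left.1 (h hi)) haT ha

theorem sy_L_inj {M Λ : ℕ} (A : Fin M → Finset ℕ) (hA : ∀ i, (A i).card ≤ Λ)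
    (T T' : Finset ℕ) (i : Fin M)
    (h : (sy_L A T i : Finset (Fin Λ)) = sy_L A T' i) (a : ℕ) (ha : a ∈ A i) (haT : a ∈ T) :
    a ∈ T' := by
  classical
  have hlt : sy_rk (A i) a < Λ := (sy_rk_lt ha).trans_le (hA i)
  have hmem : (⟨sy_rk (A i) a, hlt⟩ : Fin Λ) ∈ (sy_L A T i : Finset (Fin Λ)) := by
    unfold sy_L
    simp only [Finset.mem_filter, Finset.mem_univ, true_and]
    exact ⟨i.2, a, ha, haT, rfl⟩
  rw [h] at hmem
  unfold sy_L at hmem
  simp only [Finset.mem_filter, Finset.mem_univ, true_and] at hmem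
  obtain ⟨hi, a', ha', haT', hl⟩ := hmem
  have : a' = a := sy_rk_inj ha' ha hl
  rwa [← this]

/-- the index as an element of `Fin M` -/
def sy_fi {M : ℕ} (hM : 0 < M) (i : ℕ) : Fin M := if h : i < M then ⟨i, h⟩ else ⟨0, hM⟩

theorem sy_fi_eq {M : ℕ} (hM : 0 < M) {i : ℕ} (h : i < M) : sy_fi hM i = ⟨i, h⟩ := by
  unfold sy_fi
  rw [dif_pos h]

theorem sy_fi_inj {M : ℕ} (hM : 0 < M) {n : ℕ} {ι : ℕ → ℕ} (hι : p3inc n (range M) ι)
    (i j : ℕ) (hi : i < n) (hj : j < n) (h : sy_fi hM (ι i) = sy_fi hM (ι j)) : i = j := by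
  have h1 := Finset.mem_range.1 (hι.1 i hi)
  have h2 := Finset.mem_range.1 (hι.1 j hj)
  rw [sy_fi_eq hM h1, sy_fi_eq hM h2, Fin.mk.injEq] at h
  rcases lt_trichotomy i j with hlt | heq | hgt
  · have := hι.2 i j hlt hj; omega
  · exact heq
  · have := hι.2 j i hgt hi; omega

theorem sy_pow_le {k D G : ℕ} (hk : k ≤ D) (hG : 2 ^ D ≤ G) : 2 ^ k ≤ G :=
  (Nat.pow_le_pow_right (by norm_num) hk).trans hG

/-- from atoms to letters -/
theorem p3_sys {S : Type} {M Λ G D : ℕ} (hM : 0 < M) (hG : 2 ^ D ≤ G) {e : S → ℝ}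
    {σ : S → S → S × S} {K : S → Finset ℕ} {y : Fin M → S} (h : ACT Λ G e σ K y) :
    ∃ (w : S → ℕ → Finset (Fin Λ)) (y' : ℕ → S), P3Sys Λ D M e σ w y' := by
  classical
  have hdis : ∀ a b : Fin M, a ≠ b → Disjoint (K (y a)) (K (y b)) := fun a b hab =>
    h.disj 0 (Nat.zero_le _) y Reach.zero a b hab
  refine ⟨fun x i => sy_L (fun j => K (y j)) (K x) i, fun i => y (sy_fi hM i), ?_⟩
  refine ⟨h.sgn, ?_, ?_, ?_, ?_, ?_⟩
  · -- supp
    intro b hb ι hι i hi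
    refine sy_L_empty _ _ _ fun hiM => ?_
    have hsub := p3_sub h b (sy_pow_le hb hG) (fun r => sy_fi hM (ι r))
      (fun i j hi hj => sy_fi_inj hM hι i j hi hj)
    rw [Finset.disjoint_left]
    intro a ha ha'
    have h1 := hsub ha
    rw [Finset.mem_biUnion] at h1
    obtain ⟨r, hr, har⟩ := h1
    rw [Finset.mem_range] at hr
    have hrM := Finset.mem_range.1 (hι.1 r hr)
    rw [sy_fi_eq hM hrM] at har
    refine (Finset.disjoint_left.1 (hdis ⟨i, hiM⟩ ⟨ι r, hrM⟩ ?_)) ha' har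
    rw [Ne, Fin.mk.injEq]
    exact hi r hr
  · -- cons
    intro b hb ι hι i
    have hg := (p3_gate h b (sy_pow_le hb hG) (fun r => sy_fi hM (ι r))
      (fun i j hi hj => sy_fi_inj hM hι i j hi hj)).1
    show (sy_L _ _ i : Finset (Fin Λ)) ∪ sy_L _ _ i = sy_L _ _ i ∪ sy_L _ _ i
    rw [← sy_L_union, ← sy_L_union, hg]
  · -- disj
    intro b hb ι hι i
    have hg := (p3_gate h b (sy_pow_le hb hG) (fun r => sy_fi hM (ι r))
      (fun i j hi hj => sy_fi_inj hM hι i j hi hj)).2.1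
    exact sy_L_disj _ _ _ hg i
  · -- flip
    intro b hb ι hι
    exact (p3_gate h b (sy_pow_le hb hG) (fun r => sy_fi hM (ι r))
      (fun i j hi hj => sy_fi_inj hM hι i j hi hj)).2.2
  · -- uniq
    intro b b' hb hb' ι ι' hι hι' hw
    have key : ∀ (b b' : List Bool), b.length ≤ D → b'.length ≤ D → ∀ ι ι' : ℕ → ℕ,
        p3inc (2 ^ b.length) (range M) ι → p3inc (2 ^ b'.length) (range M) ι' →
        (∀ i, (sy_L (fun j => K (y j)) (K (p3T σ b fun r => y (sy_fi hM (ι r)))) i :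
          Finset (Fin Λ)) =
          sy_L (fun j => K (y j)) (K (p3T σ b' fun r => y (sy_fi hM (ι' r)))) i) →
        K (p3T σ b fun r => y (sy_fi hM (ι r))) ⊆
          K (p3T σ b' fun r => y (sy_fi hM (ι' r))) := by
      intro b b' hb hb' ι ι' hι hι' hw a ha
      have h1 := p3_sub h b (sy_pow_le hb hG) (fun r => sy_fi hM (ι r))
        (fun i j hi hj => sy_fi_inj hM hι i j hi hj) ha
      rw [Finset.mem_biUnion] at h1
      obtain ⟨r, hr, har⟩ := h1
      exact sy_L_inj (fun j => K (y j)) h.card _ _ (sy_fi hM (ι r)) (hw _) a har ha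
    refine p3_uniq h b b' (sy_pow_le hb hG) (sy_pow_le hb' hG) (fun r => sy_fi hM (ι r))
      (fun r => sy_fi hM (ι' r)) (fun i j hi hj => sy_fi_inj hM hι i j hi hj)
      (fun i j hi hj => sy_fi_inj hM hι' i j hi hj) ?_
    exact Finset.Subset.antisymm (key b b' hb hb' ι ι' hι hι' hw)
      (key b' b hb' hb ι' ι hι' hι fun i => (hw i).symm)

end Pool.Agent.XO
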