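import Mathlib
import Pool.Agent.Lib_helper10.XO.Defs3
import Pool.Agent.Lib_helper10.XO.P3.TR
set_option autoImplicit false

namespace Pool.Agent.XO

open Finset

/-- an increasing sequence in a large set -/
theorem wo_inc (X : Finset ℕ) {n : ℕ} (hn : n ≤ X.card) : ∃ ι, p3inc n X ι := by
  refine ⟨fun i => if h : i < X.card then X.orderEmbOfFin rfl ⟨i, h⟩ else 0, fun i hi => ?_,
    fun i j hij hj => ?_⟩
  · beta_reduce
    rw [dif_pos (by omega)]
    exact X.orderEmbOfFin_mem rfl _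
  · beta_reduce
    rw [dif_pos (by omega), dif_pos (by omega)]
    exact (X.orderEmbOfFin rfl).strictMono hij

theorem p3_words {S : Type} {Λ D M : ℕ} {e : S → ℝ} {σ : S → S → S × S}
    {w : S → ℕ → Finset (Fin Λ)} {y : ℕ → S} (h : P3Sys Λ D M e σ w y) (X : Finset ℕ)
    (hX : X ⊆ range M) (b : List Bool) (hb : b.length < D)
    (ω ω0 ω1 : ℕ → Finset (Fin Λ)) (ε ε0 ε1 : ℝ) (hω : P3Hom e σ w y X b ω ε)
    (hω0 : P3Hom e σ w y X (false :: b) ω0 ε0) (hω1 : P3Hom e σ w y X (true :: b) ω1 ε1)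
    (hc : 2 ^ (b.length + 1) ≤ X.card) :
    (∀ j, j < 2 * 2 ^ b.length → ω0 j ∪ ω1 j = ω (j / 2)) ∧
    (∀ j, j < 2 * 2 ^ b.length → Disjoint (ω0 j) (ω1 j)) ∧ ε0 * ε1 = -(ε * ε) ∧
    (ε = 1 ∨ ε = -1) := by
  obtain ⟨ι, hι⟩ := wo_inc X hc
  have h2 : 2 ^ (b.length + 1) = 2 * 2 ^ b.length := by ring
  have hι0 : p3inc (2 ^ b.length) X fun r => ι (2 * r) :=
    ⟨fun i hi => hι.1 _ (by omega), fun i j hij hj => hι.2 _ _ (by omega) (by omega)⟩
  have hι1 : p3inc (2 ^ b.length) X fun r => ι (2 * r + 1) :=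
    ⟨fun i hi => hι.1 _ (by omega), fun i j hij hj => hι.2 _ _ (by omega) (by omega)⟩
  have hM : ∀ {n : ℕ} {κ : ℕ → ℕ}, p3inc n X κ → p3inc n (range M) κ :=
    fun hκ => ⟨fun i hi => hX (hκ.1 i hi), hκ.2⟩
  have hne : ∀ i j, i < 2 ^ (b.length + 1) → j < 2 ^ (b.length + 1) → i ≠ j → ι i ≠ ι j := by
    intro i j hi hj hij
    rcases Nat.lt_or_gt_of_ne hij with h3 | h3
    · exact (hι.2 i j h3 hj).ne
    · exact (hι.2 j i h3 hi).ne'
  obtain ⟨a1, a2⟩ := hω0 ι hι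
  obtain ⟨b1, b2⟩ := hω1 ι hι
  obtain ⟨c1, c2⟩ := hω _ hι0
  obtain ⟨d1, d2⟩ := hω _ hι1
  have k1 := h.cons b hb ι (hM hι)
  have k2 := h.disj b hb ι (hM hι)
  have k3 := h.flip b hb ι (hM hι)
  refine ⟨fun j hj => ?_, fun j hj => ?_, ?_, ?_⟩
  · have e1 := a2 j (by show j < 2 ^ (b.length + 1); omega)
    have e2 := b2 j (by show j < 2 ^ (b.length + 1); omega)
    rw [← e1, ← e2, k1]
    rcases Nat.even_or_odd' j with ⟨r, rfl | rfl⟩
    · rw [h.supp b hb.le _ (hM hι1) (ι (2 * r)) fun r' hr' =>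
        hne _ _ (by omega) (by omega) (by omega), Finset.union_empty, c2 r (by omega)]
      congr 1
      omega
    · rw [h.supp b hb.le _ (hM hι0) (ι (2 * r + 1)) fun r' hr' =>
        hne _ _ (by omega) (by omega) (by omega), Finset.empty_union, d2 r (by omega)]
      congr 1
      omega
  · have e1 := a2 j (by show j < 2 ^ (b.length + 1); omega)
    have e2 := b2 j (by show j < 2 ^ (b.length + 1); omega)
    rw [← e1, ← e2]
    exact k2 _
  · rw [a1, b1, c1, d1] at k3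
    exact k3
  · rw [← c1]
    exact h.sgn _

end Pool.Agent.XO
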