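import Mathlib
import Pool.Agent.Lib_helper10.XO.Defs3
import Pool.Agent.Lib_helper10.XO.P3.SY
import Pool.Agent.Lib_helper10.XO.P3.CO
import Pool.Agent.Lib_helper10.XO.P3.SA
import Pool.Agent.Lib_helper10.XO.P3.HO
import Pool.Agent.Lib_helper10.XO.P3.WO
set_option autoImplicit false

namespace Pool.Agent.XO

open Finset

theorem za_inc_sub {n : ℕ} {X Y : Finset ℕ} (h : X ⊆ Y) {ι : ℕ → ℕ} (hι : p3inc n X ι) :
    p3inc n Y ι := ⟨fun i hi => h (hι.1 i hi), hι.2⟩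

theorem za_hom_sub {Λ : ℕ} {S : Type} {e : S → ℝ} {σ : S → S → S × S}
    {w : S → ℕ → Finset (Fin Λ)} {y : ℕ → S} {X Y : Finset ℕ} (h : X ⊆ Y) {b : List Bool}
    {ω : ℕ → Finset (Fin Λ)} {ε : ℝ} (hY : P3Hom e σ w y Y b ω ε) : P3Hom e σ w y X b ω ε :=
  fun ι hι => hY ι (za_inc_sub h hι)

/-- the measure -/
noncomputable def zaMeas (Λ n : ℕ) (ω : ℕ → Finset (Fin Λ)) : ℕ :=
  p3lam n ω * ((Λ + 1) * (Λ ^ 2 + 1)) + (Λ - p3nu n ω) * (Λ ^ 2 + 1) + (Λ ^ 2 - p3Psi n ω)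

theorem za_nu_le {Λ : ℕ} (n : ℕ) (ω : ℕ → Finset (Fin Λ)) : p3nu n ω ≤ p3lam n ω := by
  unfold p3nu p3lam
  rw [p3P, card_filter]
  refine sum_le_sum fun r _ => ?_
  split_ifs with hr
  · exact hr.card_pos
  · exact Nat.zero_le _

theorem za_psi_le {Λ : ℕ} (n : ℕ) (ω : ℕ → Finset (Fin Λ)) : p3Psi n ω ≤ p3nu n ω ^ 2 := by
  unfold p3nu p3Psi
  refine (card_filter_le _ _).trans ?_
  rw [card_product, sq]

theorem za_meas_lt {Λ : ℕ} (n n' : ℕ) (ω ω' : ℕ → Finset (Fin Λ)) (hl : p3lam n ω ≤ Λ)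
    (h : p3better n' ω' n ω) : p3lam n' ω' ≤ Λ ∧ zaMeas Λ n' ω' < zaMeas Λ n ω := by
  have hl' : p3lam n' ω' ≤ Λ := by
    rcases h with h | ⟨h, -⟩
    · omega
    · omega
  refine ⟨hl', ?_⟩
  have hn := za_nu_le n ω
  have hn' := za_nu_le n' ω'
  have hp : p3Psi n ω ≤ Λ ^ 2 := (za_psi_le n ω).trans (Nat.pow_le_pow_left (by omega) 2)
  have hp' : p3Psi n' ω' ≤ Λ ^ 2 := (za_psi_le n' ω').trans (Nat.pow_le_pow_left (by omega) 2)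
  unfold zaMeas
  set B := Λ ^ 2 with hB
  obtain ⟨a, ha⟩ := Nat.exists_eq_add_of_le (show p3nu n ω ≤ Λ by omega)
  obtain ⟨a', ha'⟩ := Nat.exists_eq_add_of_le (show p3nu n' ω' ≤ Λ by omega)
  have e1 : Λ - p3nu n ω = a := by omega
  have e2 : Λ - p3nu n' ω' = a' := by omega
  rw [e1, e2]
  have s1 : B - p3Psi n ω ≤ B := Nat.sub_le _ _
  have s2 : B - p3Psi n' ω' ≤ B := Nat.sub_le _ _
  rcases h with h | ⟨h0, h | ⟨h, h3⟩⟩
  · have hle : (p3lam n' ω' + 1) * ((Λ + 1) * (B + 1)) ≤ p3lam n ω * ((Λ + 1) * (B + 1)) :=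
      Nat.mul_le_mul_right _ h
    have ha2 : a' * (B + 1) ≤ Λ * (B + 1) := Nat.mul_le_mul_right _ (by omega)
    nlinarith
  · rw [h0]
    have ha2 : (a' + 1) * (B + 1) ≤ a * (B + 1) := Nat.mul_le_mul_right _ (by omega)
    nlinarith
  · rw [h0]
    have haa : a' = a := by omega
    rw [haa]
    omega

/-- the statement of the induction -/
def zaP (Λ m k N : ℕ) : Prop :=
  ∀ (S : Type) (D M : ℕ) (e : S → ℝ) (σ : S → S → S × S) (w : S → ℕ → Finset (Fin Λ))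
    (y : ℕ → S), P3Sys Λ D M e σ w y → k + m + 1 ≤ D → ∀ X : Finset ℕ, X ⊆ range M →
    N ≤ X.card → ∀ b : List Bool, b.length = k → ∀ (ω : ℕ → Finset (Fin Λ)) (ε : ℝ),
    P3Hom e σ w y X b ω ε → p3lam (2 ^ k) ω ≤ Λ → zaMeas Λ (2 ^ k) ω ≤ m → False

theorem za_step (Λ m k N1 : ℕ) (hIH : m = 0 ∨ zaP Λ (m - 1) (k + 1) N1) :
    ∃ N, zaP Λ m k N := by
  obtain ⟨N0, hN0⟩ := p3_hom Λ (k + 1)
    (max N1 (2 * 2 ^ k * (2 ^ k + 1) + 2 ^ k + 1 + 2 ^ (k + 1)))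
  obtain ⟨N, hN⟩ := p3_hom Λ (k + 1) N0
  refine ⟨N, ?_⟩
  intro S D M e σ w y h hD X hX hXN b hb ω ε hω hlam hmeas
  subst hb
  obtain ⟨X0, hX0, hX0c, ω0, ε0, hom0⟩ := hN e σ w y h.sgn X hXN (false :: b) rfl
  obtain ⟨X1, hX1, hX1c, ω1, ε1, hom1⟩ := hN0 e σ w y h.sgn X0 hX0c (true :: b) rfl
  have hom0' := za_hom_sub hX1 hom0
  have hX1X : X1 ⊆ X := hX1.trans hX0
  have homb := za_hom_sub hX1X hω
  have hX1M : X1 ⊆ range M := hX1X.trans hX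
  have hbD : b.length < D := by omega
  have hpow : 2 ^ (b.length + 1) = 2 * 2 ^ b.length := by rw [pow_succ, mul_comm]
  have hcard1 : N1 ≤ X1.card := (le_max_left _ _).trans hX1c
  have hcard2 : 2 * 2 ^ b.length * (2 ^ b.length + 1) + 2 ^ b.length + 1 + 2 ^ (b.length + 1)
      ≤ X1.card := (le_max_right _ _).trans hX1c
  obtain ⟨hu, hd, hsg, hpm⟩ := p3_words h X1 hX1M b hbD ω ω0 ω1 ε ε0 ε1 homb hom0' hom1
    (by omega)
  by_cases h0 : p3better (2 * 2 ^ b.length) ω0 (2 ^ b.length) ω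
  · obtain ⟨hl', hm'⟩ := za_meas_lt _ _ ω ω0 hlam h0
    rcases hIH with rfl | hIH
    · omega
    · rw [← hpow] at hl' hm'
      exact hIH S D M e σ w y h (by omega) X1 hX1M hcard1 (false :: b) rfl ω0 ε0 hom0' hl'
        (by omega)
  by_cases h1 : p3better (2 * 2 ^ b.length) ω1 (2 ^ b.length) ω
  · obtain ⟨hl', hm'⟩ := za_meas_lt _ _ ω ω1 hlam h1
    rcases hIH with rfl | hIH
    · omega
    · rw [← hpow] at hl' hm'
      exact hIH S D M e σ w y h (by omega) X1 hX1M hcard1 (true :: b) rfl ω1 ε1 hom1 hl'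
        (by omega)
  obtain ⟨⟨f0, hf0⟩, ⟨f1, hf1⟩⟩ := p3_core (2 ^ b.length) ω ω0 ω1 hu hd h0 h1
  have e0 := p3_same h X1 hX1M b false hbD ω ω0 ε ε0 homb hom0' f0 hf0 (by omega)
  have e1 := p3_same h X1 hX1M b true hbD ω ω1 ε ε1 homb hom1 f1 hf1 (by omega)
  rw [← e0, ← e1] at hsg
  rcases hpm with hp | hp <;> rw [hp] at hsg <;> norm_num at hsg

theorem za_main (Λ m : ℕ) : ∀ k, ∃ N, zaP Λ m k N := by
  induction m with
  | zero => exact fun k => za_step Λ 0 k 0 (Or.inl rfl)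
  | succ m ih =>
    intro k
    obtain ⟨N1, hN1⟩ := ih (k + 1)
    exact za_step Λ (m + 1) k N1 (Or.inr hN1)

/-- PART III -/
theorem act_false (Λ : ℕ) : ∃ M G : ℕ, ∀ (S : Type) (e : S → ℝ) (σ : S → S → S × S)
    (K : S → Finset ℕ) (y : Fin M → S), ¬ ACT Λ G e σ K y := by
  set m : ℕ := Λ * ((Λ + 1) * (Λ ^ 2 + 1)) + Λ * (Λ ^ 2 + 1) + Λ ^ 2 with hm
  obtain ⟨N1, hN1⟩ := za_main Λ m 0
  obtain ⟨N, hN⟩ := p3_hom Λ 0 N1
  refine ⟨max N 1, 2 ^ (m + 1), ?_⟩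
  intro S e σ K y h
  obtain ⟨w, y', hs⟩ := p3_sys (D := m + 1) (show 0 < max N 1 by
    exact lt_of_lt_of_le one_pos (le_max_right _ _)) le_rfl h
  obtain ⟨X, hX, hXc, ω, ε, hom⟩ := hN e σ w y' hs.sgn (range (max N 1))
    (by rw [card_range]; exact le_max_left _ _) [] rfl
  have hlam : p3lam (2 ^ 0) ω ≤ Λ := by
    unfold p3lam
    rw [pow_zero, sum_range_one]
    exact (card_le_univ _).trans (by rw [Fintype.card_fin])
  refine hN1 S (m + 1) (max N 1) e σ w y' hs (by omega) X hX hXc [] rfl ω ε hom hlam ?_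
  unfold zaMeas
  have h1 : p3lam (2 ^ 0) ω * ((Λ + 1) * (Λ ^ 2 + 1)) ≤ Λ * ((Λ + 1) * (Λ ^ 2 + 1)) :=
    Nat.mul_le_mul_right _ hlam
  have h2 : (Λ - p3nu (2 ^ 0) ω) * (Λ ^ 2 + 1) ≤ Λ * (Λ ^ 2 + 1) :=
    Nat.mul_le_mul_right _ (Nat.sub_le _ _)
  have h3 : Λ ^ 2 - p3Psi (2 ^ 0) ω ≤ Λ ^ 2 := Nat.sub_le _ _
  omega

end Pool.Agent.XO
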